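import Pool.Agent.H78.GX.H78.GS.TA3

/-!
# GDA. The distance functions are invariant (MP_c59857_nt)
-/

set_option autoImplicit false

open Finset Pool.Agent.H6.N4D Pool.Agent.H78.GX.H6.N4D Pool.Agent.H78.GX

namespace Pool.Agent.H78.GX.H17.GSA

open Pool.Agent.H78.GX.H78.GS

/-- GDA. The distance functions are invariant. -/
theorem pf_GDA (hGDP : T_GDP) (hGDS : T_GDS) : T_GDA := by
  intro K r₀ e₁ e hK he₁ he₁1 he
  obtain ⟨X₁, h1⟩ := hGDP K r₀ e₁ e hK he₁ he₁1 he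
  obtain ⟨X₂, h2⟩ := hGDS K r₀ e₁ e hK he₁ he₁1 he
  refine ⟨max X₁ X₂, ?_⟩
  intro S Δ e₀ c D F θ φ hS hSK hX hΔ hL he₀ he₀1 hF hinv hD hc
  refine ⟨fun t j => ⟨?_, ?_⟩, ?_, ?_⟩
  · unfold Gd
    rw [Finset.le_fold_min]
    refine ⟨zero_le_one, fun i _ => ?_⟩
    unfold ds
    have hr : 0 < S.rho := hS.hr0
    have hx : 0 < S.x t := Real.exp_pos _
    exact mul_nonneg (by positivity) (abs_nonneg _)
  · unfold Gd
    rw [Finset.fold_min_le]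
    exact Or.inl le_rfl
  · exact h1 S Δ e₀ c D F θ φ hS hSK ((le_max_left _ _).trans hX) hΔ hL he₀ he₀1 hF hinv hD hc
  · exact h2 S Δ e₀ c D F θ φ hS hSK ((le_max_right _ _).trans hX) hΔ hL he₀ he₀1 hF hinv hD hc

end Pool.Agent.H78.GX.H17.GSA
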